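import Pool.Agent.H98.ML.Final2
import Pool.Agent.H98.ML.MainDat2
import Pool.Agent.H98.ML.MainAlg2
import Pool.Agent.H98.ML.MainAn2
import Pool.Agent.H98.ML.MainPos2

/-!
# Malle's conjecture over the rationals for 2-groups with central elementary abelian Frattini
subgroup

Let `G` be a nontrivial transitive permutation group of degree `n` with `x ^ 4 = 1` and `x ^ 2`
central for all `x` in `G`. Then the number of number fields of degree `n` with group `G` and
`|disc| ≤ B` is asymptotic to `c B ^ (1 / m) (log B) ^ (b - 1)` with `c > 0`, where `m` is the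
least index of a nontrivial element of `G` and `b` the number of classes of elements of index `m`.
-/

set_option autoImplicit false

namespace Pool.Agent.H98.Kept.ClassTwoTwoGroups

theorem result (n : ℕ) (G : Subgroup (Equiv.Perm (Fin n)))
    (hne : G ≠ ⊥) (htr : MulAction.IsPretransitive G (Fin n))
    (h4 : ∀ x : G, x ^ 4 = 1) (hc : ∀ x y : G, x ^ 2 * y = y * x ^ 2) (m : ℕ)
    (hm : IsLeast {j | ∃ g ∈ G, g ≠ 1 ∧ g.support.card - Multiset.card g.cycleType = j} m) :
    ∃ c : ℝ, 0 < c ∧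
      Asymptotics.IsEquivalent Filter.atTop
        (fun B : ℝ => ((Nat.card (Quot (fun L L' : {M : IntermediateField ℚ (AlgebraicClosure ℚ) //
            Module.finrank ℚ M = n ∧
            (∃ e : (M →ₐ[ℚ] AlgebraicClosure ℚ) ≃ Fin n, ∀ π : Equiv.Perm (Fin n),
               π ∈ G ↔ ∃ σ : AlgebraicClosure ℚ ≃ₐ[ℚ] AlgebraicClosure ℚ,
                 ∀ φ : M →ₐ[ℚ] AlgebraicClosure ℚ, e (σ.toAlgHom.comp φ) = π (e φ)) ∧
            ∃ h : NumberField M,
              ((|@NumberField.discr M _ h| : ℤ) : ℝ) ≤ B * ((|NumberField.discr ℚ| : ℤ) : ℝ) ^ n}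
          => Nonempty (L.1 ≃ₐ[ℚ] L'.1))) : ℕ) : ℝ))
        (fun B : ℝ => c * B ^ (1 / m : ℝ) * Real.log B ^
          (Nat.card {c : ConjClasses G // ∃ g : G, ConjClasses.mk g = c ∧ g ≠ 1 ∧
            (g : Equiv.Perm (Fin n)).support.card -
              Multiset.card (g : Equiv.Perm (Fin n)).cycleType = m} - 1)) :=
  Pool.Agent.H98.ML.final2_of3
    (fun D H0 w hw => Pool.Agent.H98.ML.main_dat2_of D H0 w hw
      (fun D H0 w hw => Pool.Agent.H98.ML.main_alg2 D H0 w hw)
      (fun _ w θ hθ => Pool.Agent.H98.ML.main_an2 w θ hθ)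
      (fun _ w θ h0 h1 => Pool.Agent.H98.ML.main_pos2 w θ h0 h1))
    n G hne htr h4 hc m hm

end Pool.Agent.H98.Kept.ClassTwoTwoGroups
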