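import Pool.Agent.H13.RZ.MainZ
import Pool.Agent.H13.RZ.Pub

/-!
# A lower bound in Malle's question for all finite reflection groups over every number field

Let `F/k` be an extension of number fields of degree `b`, with group `H ≤ S_b` on the embeddings
(`F = k`, `H = 1` is allowed), let `G` be a finite group with a faithful irreducible representation
`ρ` over `F` on a space `V` whose image is generated by the set `R` of the elements which act as
reflections, and let `π : G → S_n` be transitive, `n ≥ 2`. Assume that `π` is faithful and `δ ≥ 0`,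
or that `dim V ≥ 2`, the kernel of `π` acts on `V` by scalars and `δ > 0`. Then
`N(k, π(G) wr H; B) ≥ c B ^ ((|R| + dim V) / m - δ)` for all large `B`, where `m` is the number of
pairs (element `r` of `R`, point moved by `π r`).
-/

set_option autoImplicit false

namespace Pool.Agent.Results.MP_a3214d_nt.ReflectionGroups

theorem result :
    ∀ (k F : Type) [Field k] [NumberField k] [Field F] [NumberField F] [Algebra k F]
      (b : ℕ) (H : Subgroup (Equiv.Perm (Fin b))),
      (∃ e : (F →ₐ[k] AlgebraicClosure k) ≃ Fin b, ∀ η : Equiv.Perm (Fin b),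
        η ∈ H ↔ ∃ σ : AlgebraicClosure k ≃ₐ[k] AlgebraicClosure k,
          ∀ φ : F →ₐ[k] AlgebraicClosure k, e (σ.toAlgHom.comp φ) = η (e φ)) →
    ∀ (G V : Type) [Group G] [Finite G] [AddCommGroup V] [Module F V] [FiniteDimensional F V]
      (ρ : Representation F G V), Function.Injective ρ →
      (∀ U : Submodule F V, (∀ g, ∀ v ∈ U, ρ g v ∈ U) → U = ⊥ ∨ U = ⊤) →
    ∀ R : Set G, R = {g | Module.finrank F (LinearMap.range (ρ g - 1)) = 1} →
      Subgroup.closure R = ⊤ →
    ∀ (n : ℕ) (π : G →* Equiv.Perm (Fin n)), 2 ≤ n → (∀ i j, ∃ g, π g i = j) →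
    ∀ δ : ℝ, ((Function.Injective π ∧ 0 ≤ δ) ∨
      (2 ≤ Module.finrank F V ∧ 0 < δ ∧ ∀ g, π g = 1 → ∃ c : F, ∀ v, ρ g v = c • v)) →
      ∃ c : ℝ, 0 < c ∧ ∀ᶠ B : ℝ in Filter.atTop,
        c * B ^ (((Nat.card R + Module.finrank F V : ℕ) : ℝ) /
            (Nat.card {p : G × Fin n // p.1 ∈ R ∧ π p.1 p.2 ≠ p.2} : ℝ) - δ) ≤
          ((Nat.card (Quot (fun L L' : {M : IntermediateField k (AlgebraicClosure k) //
              Module.finrank k M = b * n ∧
              (∃ e : (M →ₐ[k] AlgebraicClosure k) ≃ Fin b × Fin n,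
                ∀ τ : Equiv.Perm (Fin b × Fin n),
                (∃ η ∈ H, ∃ γ : Fin b → G, ∀ i j, τ (i, j) = (η i, π (γ i) j)) ↔
                  ∃ σ : AlgebraicClosure k ≃ₐ[k] AlgebraicClosure k,
                    ∀ φ : M →ₐ[k] AlgebraicClosure k, e (σ.toAlgHom.comp φ) = τ (e φ)) ∧
              ∃ h : NumberField M,
                ((|@NumberField.discr M _ h| : ℤ) : ℝ) ≤
                  B * ((|NumberField.discr k| : ℤ) : ℝ) ^ (b * n)}
            => Nonempty (L.1 ≃ₐ[k] L'.1))) : ℕ) : ℝ) := by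
  intro k F _ _ _ _ _ b H hF G V _ _ _ _ _ ρ hρ hirr R hR hgen n π hn htr δ hπ
  subst hR
  obtain ⟨c, hc, h⟩ := Pool.Agent.H13.RZ.mainZ k F H hF ρ ⟨hρ, hirr, hgen⟩ hn π
    (Pool.Agent.H13.RZ.pub_trans hn π htr) δ hπ (finProdFinEquiv (m := b) (n := n))
  refine ⟨c, hc, ?_⟩
  filter_upwards [h] with B hB
  rw [Nat.cast_add]
  refine le_trans hB (le_of_eq ?_)
  rw [Nat.cast_inj]
  exact Pool.Agent.H13.RZ.pub_card_congr _ _ (fun M => and_congr_right fun _ =>
    and_congr_left fun _ => Pool.Agent.H13.RZ.pub_group finProdFinEquiv π H)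
    (fun M M' : IntermediateField k (AlgebraicClosure k) => Nonempty (M ≃ₐ[k] M'))

end Pool.Agent.Results.MP_a3214d_nt.ReflectionGroups
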