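import Pool.Agent.H98.MF.Final5
import Pool.Agent.H98.MF.GenTwo

/-!
# Malle's conjecture over number fields for 2-groups of class two

Let `k` be a number field and let `G` be a nontrivial transitive permutation group of degree `n`.
Let `m` be the least index of a nontrivial element of `G` and `b` the number of classes of elements
of index `m`. Assume that

* `G` is a 2-group of class at most two generated by its elements of index `m`, or
* `x ^ 4 = 1` and `x ^ 2` is central for all `x` in `G`, the class number of `k` is odd and every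
  totally positive unit of `k` is a square.

Then the number of extensions of `k` of degree `n` with group `G` and relative discriminant of
norm at most `B` is asymptotic to `c B ^ (1 / m) (log B) ^ (b - 1)` with `c > 0`.
-/

set_option autoImplicit false

open NumberField

namespace Pool.Agent.H98.Kept.TwoGroups

theorem result (k : Type) [Field k] [NumberField k] (n : ℕ) (G : Subgroup (Equiv.Perm (Fin n)))
    (hne : G ≠ ⊥) (htr : MulAction.IsPretransitive G (Fin n)) (m : ℕ)
    (hm : IsLeast {j | ∃ g ∈ G, g ≠ 1 ∧ g.support.card - Multiset.card g.cycleType = j} m)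
    (h : (IsPGroup 2 G ∧ commutator G ≤ Subgroup.center G ∧
        Subgroup.closure {g : Equiv.Perm (Fin n) | g ∈ G ∧ g ≠ 1 ∧
          g.support.card - Multiset.card g.cycleType = m} = G) ∨
      ((∀ x : G, x ^ 4 = 1) ∧ (∀ x y : G, x ^ 2 * y = y * x ^ 2) ∧
        Odd (NumberField.classNumber k) ∧
        ∀ ε : (𝓞 k)ˣ, (∀ φ : k →+* ℝ, 0 < φ ((ε : 𝓞 k) : k)) → IsSquare ε)) :
    ∃ c : ℝ, 0 < c ∧
      Asymptotics.IsEquivalent Filter.atTop
        (fun B : ℝ => ((Nat.card (Quot (fun L L' : {M : IntermediateField k (AlgebraicClosure k) //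
            Module.finrank k M = n ∧
            (∃ e : (M →ₐ[k] AlgebraicClosure k) ≃ Fin n, ∀ π : Equiv.Perm (Fin n),
               π ∈ G ↔ ∃ σ : AlgebraicClosure k ≃ₐ[k] AlgebraicClosure k,
                 ∀ φ : M →ₐ[k] AlgebraicClosure k, e (σ.toAlgHom.comp φ) = π (e φ)) ∧
            ∃ h : NumberField M,
              ((|@NumberField.discr M _ h| : ℤ) : ℝ) ≤ B * ((|NumberField.discr k| : ℤ) : ℝ) ^ n}
          => Nonempty (L.1 ≃ₐ[k] L'.1))) : ℕ) : ℝ))
        (fun B : ℝ => c * B ^ (1 / m : ℝ) * Real.log B ^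
          (Nat.card {c : ConjClasses G // ∃ g : G, ConjClasses.mk g = c ∧ g ≠ 1 ∧
            (g : Equiv.Perm (Fin n)).support.card -
              Multiset.card (g : Equiv.Perm (Fin n)).cycleType = m} - 1)) := by
  rcases h with ⟨h2, hcl, hgen⟩ | ⟨h4, hc, hk⟩
  · obtain ⟨h4, hc⟩ := Pool.Agent.H98.MF.GT.class_two n G htr h2 hcl m hm hgen
    exact Pool.Agent.H98.MF.final5 k n G hne htr h4 hc m hm (Or.inl hgen)
  · exact Pool.Agent.H98.MF.final5 k n G hne htr h4 hc m hm (Or.inr hk)

end Pool.Agent.H98.Kept.TwoGroups
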